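import Pool.Agent.Helper20.FK.K2

/-!
# Köthe algebras: normability and the equivalence
-/

open Topology Filter

namespace Pool.Agent.Helper20.FA

universe u v

attribute [local instance] IsFrechet.tag IsFrechet.csm IsFrechet.lcs

variable {A : Type u} [NonUnitalRing A] [Module ℂ A] [IsScalarTower ℂ A A] [SMulCommClass ℂ A A]
  [TopologicalSpace A] [IsFrechet A] [ContinuousMul A] {e : ℕ → A} {χ : ℕ → A →L[ℂ] ℂ}

theorem normable_sub {L : Submodule ℂ (ℂ × A)} {P : Seminorm ℂ (ℂ × A)} (hP : Continuous P)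
    (h : ∀ U ∈ 𝓝 (0 : A), ∃ r : ℝ, 0 < r ∧ ∀ z ∈ L, P z < r → z.2 ∈ U)
    (h1 : ∀ z ∈ L, ‖z.1‖ ≤ P z) : Normable L := by
  refine normable_of_bound (p := P.comp L.subtype) (hP.comp continuous_subtype_val)
    fun O hO => ?_
  rw [nhds_subtype_eq_comap] at hO
  obtain ⟨O', hO', hOO⟩ := hO
  have h0 : O' ∈ 𝓝 ((0 : ℂ), (0 : A)) := hO'
  rw [nhds_prod_eq, Filter.mem_prod_iff] at h0
  obtain ⟨V1, hV1, V2, hV2, hV⟩ := h0
  obtain ⟨r, hr, hrV⟩ := Metric.mem_nhds_iff.1 hV1
  obtain ⟨r', hr', hrU⟩ := h V2 hV2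
  refine ⟨min r r', lt_min hr hr', fun x hx => hOO (hV ⟨hrV ?_, ?_⟩)⟩
  · rw [Metric.mem_ball, dist_zero_right]
    exact (h1 x.1 x.2).trans_lt (hx.trans_le (min_le_left _ _))
  · exact hrU x.1 x.2 (hx.trans_le (min_le_right _ _))

/-- The seminorm `|λ| + p a`. -/
noncomputable def semP (p : Seminorm ℂ A) : Seminorm ℂ (ℂ × A) :=
  (normSeminorm ℂ ℂ).comp (LinearMap.fst ℂ ℂ A) + p.comp (LinearMap.snd ℂ ℂ A)

theorem semP_apply (p : Seminorm ℂ A) (z : ℂ × A) : semP p z = ‖z.1‖ + p z.2 := rfl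

theorem continuous_semP {p : Seminorm ℂ A} (hp : Continuous p) : Continuous (semP p) := by
  show Continuous fun z : ℂ × A => ‖z.1‖ + p z.2
  exact (by fun_prop : Continuous fun z : ℂ × A => ‖z.1‖).add (hp.comp continuous_snd)

theorem Kothe.normable_succ (h : Kothe e χ) (p : Seminorm ℂ A) (n : ℕ) :
    Normable (fixP (famK e p (n + 1))) := by
  let P : Seminorm ℂ (ℂ × A) := semP ((normSeminorm ℂ ℂ).comp (χ n).toLinearMap)
  have hP : ∀ z, P z = ‖z.1‖ + ‖χ n z.2‖ := fun z => rfl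
  have hz : ∀ z ∈ fixP (famK e p (n + 1)), z.1 = 0 ∧ z.2 = χ n z.2 • zer e p n := by
    intro z hz
    rw [mem_fixP] at hz
    have h1 : mulP (famK e p (n + 1)) z = (0, (z.1 + χ n z.2) • zer e p n) := by
      show mulP (0, zer e p n) z = _
      rw [mulP_def]
      refine Prod.ext (zero_mul _) ?_
      show (0 : ℂ) • z.2 + z.1 • zer e p n + zer e p n * z.2 = _
      rw [h.zer_mul, zero_smul, zero_add, add_smul]
    rw [h1] at hz
    have h2 : z.1 = 0 := (congrArg Prod.fst hz).symm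
    have h3 : z.2 = (z.1 + χ n z.2) • zer e p n := (congrArg Prod.snd hz).symm
    rw [h2, zero_add] at h3
    exact ⟨h2, h3⟩
  refine normable_sub (P := P) (continuous_semP (by
    show Continuous fun a => ‖χ n a‖
    fun_prop)) (fun U hU => ?_) fun z _ => ?_
  · obtain ⟨q, hq, hqU⟩ := exists_seminorm hU
    have h0 := apply_nonneg q (zer e p n)
    refine ⟨(q (zer e p n) + 1)⁻¹, by positivity, fun z hzL hzP => hqU _ ?_⟩
    rw [(hz z hzL).2, map_smul_eq_mul]
    rw [hP] at hzP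
    have h2 : ‖χ n z.2‖ < (q (zer e p n) + 1)⁻¹ := by
      have h3 := norm_nonneg z.1
      linarith
    have h5 : 0 < q (zer e p n) + 1 := by linarith
    have h4 : ‖χ n z.2‖ * (q (zer e p n) + 1) < 1 := (lt_div_iff₀ h5).1 (by rwa [one_div])
    nlinarith [norm_nonneg (χ n z.2)]
  · rw [hP]
    have h3 := norm_nonneg (χ n z.2)
    linarith

theorem Kothe.normable_zero (h : Kothe e χ) {p : Seminorm ℂ A} (hp : Continuous p)
    (hm : ∀ a b, p (a * b) ≤ p a * p b) (hs : ∀ a, HasSum (fun n => ‖χ n a‖ * p (e n)) (p a))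
    (hD : Dom e p) : Normable (fixP (famK e p 0)) := by
  have hz : ∀ z ∈ fixP (famK e p 0), ∀ m, p (e m) = 0 → χ m z.2 = -z.1 := by
    intro z hz m hm0
    rw [mem_fixP] at hz
    have h1 : (1 : ℂ) • z.2 + z.1 • (-∑' n, zer e p n) + (-∑' n, zer e p n) * z.2 = z.2 :=
      congrArg Prod.snd hz
    have h2 := congrArg (χ m) h1
    rw [map_add, map_add, one_smul, map_smul, map_neg, neg_mul, map_neg, h.mul, h.chi_s hD,
      if_pos hm0, smul_eq_mul] at h2
    linear_combination -h2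
  refine normable_sub (continuous_semP hp) (fun U hU => ?_) fun z _ => ?_
  · obtain ⟨q, hq, -, hsq, hqU⟩ := h.topo U hU
    obtain ⟨C, hC, N, hN⟩ := hD q hq
    set T : ℝ := ∑ n ∈ Finset.range N, q (e n) with hT
    have hT0 : 0 ≤ T := Finset.sum_nonneg fun n _ => apply_nonneg q _
    have hb : ∀ z ∈ fixP (famK e p 0), q z.2 ≤ ‖z.1‖ * T + (C + T) * p z.2 := by
      intro z hzL
      have h1 : HasSum (fun n => if n ∈ Finset.range N then q (e n) else 0) T := by
        have h2 : HasSum (fun n => if n ∈ Finset.range N then q (e n) else 0)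
            (∑ n ∈ Finset.range N, (if n ∈ Finset.range N then q (e n) else 0)) :=
          hasSum_sum_of_ne_finset_zero (fun n hn => if_neg hn)
        have h3 : ∑ n ∈ Finset.range N, (if n ∈ Finset.range N then q (e n) else 0) = T :=
          Finset.sum_congr rfl fun n hn => if_pos hn
        rwa [h3] at h2
      refine hasSum_le (fun n => ?_) (hsq z.2) ((h1.mul_left ‖z.1‖).add ((hs z.2).mul_left (C + T)))
      have hx := norm_nonneg (χ n z.2)
      have hy := norm_nonneg z.1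
      have hpe := apply_nonneg p (e n)
      have hqe := apply_nonneg q (e n)
      by_cases hn : n ∈ Finset.range N
      · rw [if_pos hn]
        have h4 : q (e n) ≤ T := Finset.single_le_sum (f := fun n => q (e n))
          (fun m _ => apply_nonneg q _) hn
        rcases h.weight hm n with h5 | h5
        · rw [hz z hzL n h5, norm_neg, h5, mul_zero, mul_zero, add_zero]
        · have h6 : ‖χ n z.2‖ * q (e n) ≤ (C + T) * (‖χ n z.2‖ * p (e n)) := by
            have h7 : q (e n) ≤ (C + T) * p (e n) := by nlinarith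
            calc ‖χ n z.2‖ * q (e n) ≤ ‖χ n z.2‖ * ((C + T) * p (e n)) :=
                  mul_le_mul_of_nonneg_left h7 hx
              _ = (C + T) * (‖χ n z.2‖ * p (e n)) := by ring
          have h8 : 0 ≤ ‖z.1‖ * q (e n) := mul_nonneg hy hqe
          linarith
      · rw [if_neg hn, mul_zero, zero_add]
        rw [Finset.mem_range, not_lt] at hn
        have h7 : q (e n) ≤ (C + T) * p (e n) := by
          have h8 := hN n hn
          have h9 : 0 ≤ T * p (e n) := mul_nonneg hT0 hpe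
          nlinarith
        calc ‖χ n z.2‖ * q (e n) ≤ ‖χ n z.2‖ * ((C + T) * p (e n)) :=
              mul_le_mul_of_nonneg_left h7 hx
          _ = (C + T) * (‖χ n z.2‖ * p (e n)) := by ring
    refine ⟨(C + T + 1)⁻¹, by positivity, fun z hzL hzP => hqU _ ?_⟩
    rw [semP_apply] at hzP
    have h1 := hb z hzL
    have hy := norm_nonneg z.1
    have hpz := apply_nonneg p z.2
    have h5 : 0 < C + T + 1 := by linarith
    have h2 : (‖z.1‖ + p z.2) * (C + T + 1) < 1 := (lt_div_iff₀ h5).1 (by rwa [one_div])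
    nlinarith [mul_nonneg hy hC, mul_nonneg hpz hC, mul_nonneg hy hT0, mul_nonneg hpz hT0]
  · rw [semP_apply]
    have h3 := apply_nonneg p z.2
    linarith

theorem Kothe.exists_dom (h : Kothe e χ) (hD : Dominated e) :
    ∃ p : Seminorm ℂ A, Continuous p ∧ (∀ a b, p (a * b) ≤ p a * p b) ∧
      (∀ a, HasSum (fun n => ‖χ n a‖ * p (e n)) (p a)) ∧ Dom e p := by
  obtain ⟨p0, hp0, H⟩ := hD
  have hU : {a : A | p0 a < 1} ∈ 𝓝 (0 : A) := by
    refine (isOpen_lt hp0 continuous_const).mem_nhds ?_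
    show p0 0 < 1
    rw [map_zero]
    exact one_pos
  obtain ⟨p, hp, hm, hs, hpU⟩ := h.topo _ hU
  have hle : ∀ a, p0 a ≤ p a := le_of_lt_one hpU
  refine ⟨p, hp, hm, hs, fun q hq => ?_⟩
  obtain ⟨C, hC⟩ := H q hq
  obtain ⟨N, hN⟩ := eventually_atTop.1 hC
  refine ⟨max C 0, le_max_right _ _, N, fun n hn => ?_⟩
  have h1 := apply_nonneg p0 (e n)
  calc q (e n) ≤ C * p0 (e n) := hN n hn
    _ ≤ max C 0 * p0 (e n) := mul_le_mul_of_nonneg_right (le_max_left _ _) h1
    _ ≤ max C 0 * p (e n) := mul_le_mul_of_nonneg_left (hle _) (le_max_right _ _)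

/-- The equivalence. -/
theorem Kothe.tfae (h : Kothe e χ) :
    List.TFAE [∀ X : FMod A, HasCores X, ∃ X : FMod A, X.HasKilled 0 ∧ HasCores X,
      Dominated e] := by
  tfae_have 1 → 2 := by
    intro h1
    obtain ⟨X, x, hx, hxa⟩ := exists_chiM (0 : A →L[ℂ] ℂ) (fun a b => (mul_zero (0 : ℂ)).symm)
    refine ⟨X, ⟨1, x, hx, fun l hl => ?_⟩, h1 X⟩
    obtain ⟨a, rfl⟩ := List.length_eq_one_iff.1 hl
    show X.act a x - (0 : A →L[ℂ] ℂ) a • x = 0
    rw [hxa, sub_self]
  tfae_have 2 → 3 := by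
    rintro ⟨X, ⟨k, x, hx, hxk⟩, hX⟩
    obtain ⟨y, hy, hya⟩ := exists_killed (χ := fun a => (0 : A →L[ℂ] ℂ) a) k hx hxk
    obtain ⟨J, hJ, z, hz, hza⟩ :=
      exists_injective (χ := fun a => (0 : A →L[ℂ] ℂ) a) hX hy hya
    refine h.nec hJ hz fun a => ?_
    rw [hza]
    exact zero_smul ℂ z
  tfae_have 3 → 1 := by
    intro hD X
    obtain ⟨p, hp, hm, hs, hDp⟩ := h.exists_dom hD
    refine (h.fam hDp).hasInjectiveCoresolution (fun i => ?_) X
    cases i with
    | zero => exact h.normable_zero hp hm hs hDp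
    | succ n => exact h.normable_succ p n
  tfae_finish

end Pool.Agent.Helper20.FA
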