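import Pool.Agent.Helper20.FK.Hom

/-!
# The modules of bounded functionals and the necessary condition
-/

open Topology Filter

namespace Pool.Agent.Helper20.FA

universe u v

attribute [local instance] IsFrechet.tag IsFrechet.csm IsFrechet.lcs

theorem IsFrechet.of_normed {E : Type v} [NormedAddCommGroup E] [NormedSpace ℂ E]
    [CompleteSpace E] : IsFrechet E := by
  refine ⟨inferInstance, inferInstance, ?_, inferInstance, ?_⟩
  · exact NormedSpace.toLocallyConvexSpace
  · have h1 : IsTopologicalAddGroup.rightUniformSpace E = (inferInstanceAs (UniformSpace E)) :=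
      IsUniformAddGroup.rightUniformSpace_eq
    rw [h1]
    infer_instance

section

variable {A : Type u} [NonUnitalRing A] [Module ℂ A]

/-- The algebra `A` with the seminorm `q`. -/
def SA (_q : Seminorm ℂ A) : Type u := A

noncomputable instance (q : Seminorm ℂ A) : SeminormedAddCommGroup (SA q) :=
  q.toSeminormedAddCommGroup

noncomputable instance (q : Seminorm ℂ A) : NormedSpace ℂ (SA q) :=
  { (inferInstanceAs (Module ℂ A) : Module ℂ (SA q)) with
    norm_smul_le := fun a b => le_of_eq (map_smul_eq_mul q a b) }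

theorem SA.norm_def (q : Seminorm ℂ A) (a : SA q) : ‖a‖ = q a := rfl

/-- The element `a`. -/
def SA.of (q : Seminorm ℂ A) (a : A) : SA q := a

/-- Bounded functionals. -/
abbrev DA (q : Seminorm ℂ A) : Type u := SA q →L[ℂ] ℂ

noncomputable instance (q : Seminorm ℂ A) : NormedAddCommGroup (DA q) :=
  { (inferInstanceAs (SeminormedAddCommGroup (DA q)) : SeminormedAddCommGroup (DA q)) with
    eq_of_dist_eq_zero := by
      intro f g h
      refine ContinuousLinearMap.ext fun c => ?_
      rw [dist_eq_norm] at h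
      have h1 := (f - g).le_opNorm c
      rw [h, zero_mul] at h1
      exact sub_eq_zero.1 (norm_le_zero_iff.1 h1) }

/-- The value at an element. -/
noncomputable def DA.at {q : Seminorm ℂ A} (β : DA q) (a : A) : ℂ := β (SA.of q a)

theorem DA.bd {q : Seminorm ℂ A} (β : DA q) (a : A) : ‖β.at a‖ ≤ ‖β‖ * q a :=
  β.le_opNorm (SA.of q a)

/-- The identity. -/
noncomputable def SA.j [TopologicalSpace A] [IsFrechet A] (q : Seminorm ℂ A)
    (hq : Continuous q) : A →L[ℂ] SA q where
  toFun := fun a => SA.of q a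
  map_add' := fun _ _ => rfl
  map_smul' := fun _ _ => rfl
  cont := by
    let f : A →+ SA q :=
      { toFun := fun a => SA.of q a
        map_zero' := rfl
        map_add' := fun _ _ => rfl }
    refine continuous_of_continuousAt_zero f ?_
    rw [ContinuousAt, map_zero, tendsto_zero_iff_norm_tendsto_zero]
    have h1 := hq.tendsto 0
    rw [map_zero] at h1
    exact h1

variable [IsScalarTower ℂ A A] [SMulCommClass ℂ A A]

/-- Multiplication from the right. -/
noncomputable def SA.rl (q : Seminorm ℂ A) : SA q →ₗ[ℂ] SA q →ₗ[ℂ] SA q :=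
  LinearMap.mk₂ ℂ (fun a c => SA.of q ((show A from c) * (show A from a)))
    (fun a b c => mul_add (show A from c) (show A from a) (show A from b))
    (fun r a c => mul_smul_comm r (show A from c) (show A from a))
    (fun a b c => add_mul (show A from b) (show A from c) (show A from a))
    (fun r a c => smul_mul_assoc r (show A from c) (show A from a))

/-- Multiplication from the right. -/
noncomputable def SA.R (q : Seminorm ℂ A) (hm : ∀ a b, q (a * b) ≤ q a * q b) :
    SA q →L[ℂ] SA q →L[ℂ] SA q :=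
  LinearMap.mkContinuous₂ (SA.rl q) 1 (by
    intro a c
    have h1 := hm c a
    rw [one_mul, mul_comm]
    exact h1)

/-- The action on functionals. -/
noncomputable def SA.B (q : Seminorm ℂ A) (hm : ∀ a b, q (a * b) ≤ q a * q b) :
    SA q →L[ℂ] DA q →L[ℂ] DA q :=
  ((ContinuousLinearMap.compL ℂ (SA q) (SA q) ℂ).flip).comp (SA.R q hm)

theorem SA.B_at (q : Seminorm ℂ A) (hm : ∀ a b, q (a * b) ≤ q a * q b) (a : A) (β : DA q)
    (c : A) : (SA.B q hm (SA.of q a) β).at c = β.at (c * a) := rfl

theorem DA.ext' {q : Seminorm ℂ A} {β γ : DA q} (h : ∀ c, β.at c = γ.at c) : β = γ :=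
  ContinuousLinearMap.ext h

variable [TopologicalSpace A] [IsFrechet A]

/-- The module `ℂ × A_q'`. -/
noncomputable def dualM (q : Seminorm ℂ A) (hm : ∀ a b, q (a * b) ≤ q a * q b)
    (hq : Continuous q) : FMod A where
  X := ℂ × DA q
  fre := IsFrechet.of_normed
  act := LinearMap.mk₂ ℂ (fun a z => (z.2.at a, SA.B q hm (SA.of q a) z.2))
    (fun a b z => Prod.ext (map_add z.2 _ _) (DA.ext' fun c => by
      show z.2.at (c * (a + b)) = z.2.at (c * a) + z.2.at (c * b)
      rw [mul_add]
      exact map_add z.2 _ _))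
    (fun r a z => Prod.ext (map_smul z.2 r _) (DA.ext' fun c => by
      show z.2.at (c * (r • a)) = r • z.2.at (c * a)
      rw [mul_smul_comm]
      exact map_smul z.2 r _))
    (fun a z w => Prod.ext rfl (DA.ext' fun c => rfl))
    (fun r a z => Prod.ext rfl (DA.ext' fun c => rfl))
  act_mul := by
    intro a b z
    refine Prod.ext rfl (DA.ext' fun c => ?_)
    show z.2.at (c * (a * b)) = z.2.at ((c * a) * b)
    rw [mul_assoc]
  act_cont := by
    have h1 : Continuous fun p : A × (ℂ × DA q) => (SA.j q hq p.1, p.2.2) := by fun_prop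
    have h2 : Continuous fun p : SA q × DA q => p.2 p.1 := by fun_prop
    have h3 : Continuous fun p : SA q × DA q => SA.B q hm p.1 p.2 := by fun_prop
    exact (h2.comp h1).prodMk (h3.comp h1)

/-- A necessary condition for the existence of a nonzero vector killed by `A` in an injective
module. -/
theorem necN [ContinuousMul A] {J : FMod A} (hJ : Injective J) {y : J.X} (hy0 : y ≠ 0)
    (hy : ∀ a : A, J.act a y = 0) :
    ∃ p : Seminorm ℂ A, Continuous p ∧ ∀ (q : Seminorm ℂ A)
      (hm : ∀ a b, q (a * b) ≤ q a * q b), Continuous q →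
      ∃ (F : DA q →L[ℂ] ℂ) (C : ℝ), 0 < C ∧ ∀ (a : A) (β : DA q),
        ‖β.at a + F (SA.B q hm (SA.of q a) β)‖ ≤ C * p a * ‖β‖ := by
  have hmt := J.fre.metr
  have hbot : IsClosed ((⊥ : Submodule ℂ J.X) : Set J.X) := isClosed_singleton
  obtain ⟨g, hg, -⟩ := exists_dual (⊥ : Submodule ℂ J.X) hbot
    (fun h => hy0 ((Submodule.mem_bot ℂ).1 h))
  obtain ⟨p, r, hp, hr, hpr⟩ := exists_bound g
  refine ⟨p, hp, fun q hm hq => ?_⟩
  let V : FMod A := dualM q hm hq
  let L : Submodule ℂ V.X := LinearMap.ker (ContinuousLinearMap.snd ℂ ℂ (DA q)).toLinearMap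
  have hL : ∀ z : V.X, z ∈ L ↔ z.2 = 0 := fun z => Iff.rfl
  have hLc : IsClosed (L : Set V.X) :=
    isClosed_eq (by fun_prop : Continuous fun z : ℂ × DA q => z.2) continuous_const
  let τ : V.X →L[ℂ] J.X := (ContinuousLinearMap.fst ℂ ℂ (DA q)).smulRight y
  have hτ : ∀ z : V.X, τ z = z.1 • y := fun z => rfl
  have hact : ∀ (a : A) (z : V.X), V.act a z = (z.2.at a, SA.B q hm (SA.of q a) z.2) :=
    fun a z => rfl
  obtain ⟨Φ, hΦ, hΦL⟩ := exists_hom hJ L hLc (by
    intro a z hz
    rw [hL] at hz ⊢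
    rw [hact, hz, map_zero]) τ (by
    intro a z hz
    rw [hL] at hz
    rw [hτ, hτ, hact, hz, map_smul, hy, smul_zero]
    show (0 : ℂ) • y = 0
    rw [zero_smul])
  let w : Seminorm ℂ (ℂ × DA q) := r.comp Φ.toLinearMap
  have hw : Continuous w := hr.comp Φ.continuous
  obtain ⟨C, hC0, hC⟩ := Seminorm.bound_of_continuous_normedSpace w hw
  let F : DA q →L[ℂ] ℂ := g.comp (Φ.comp (ContinuousLinearMap.inr ℂ ℂ (DA q)))
  have hF : ∀ β : DA q, F β = g (Φ (0, β)) := fun β => rfl
  refine ⟨F, C, hC0, fun a β => ?_⟩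
  have h1 : g (J.act a (Φ (0, β))) = β.at a + F (SA.B q hm (SA.of q a) β) := by
    have h2 : Φ (V.act a (0, β)) = J.act a (Φ (0, β)) := hΦ a (0, β)
    have h3 : V.act a (0, β) = (show V.X from ((β.at a, 0) : ℂ × DA q)) +
        (show V.X from ((0, SA.B q hm (SA.of q a) β) : ℂ × DA q)) :=
      Prod.ext (add_zero _).symm (zero_add _).symm
    have h4 : Φ (show V.X from ((β.at a, 0) : ℂ × DA q)) = β.at a • y := hΦL _ rfl
    rw [← h2, h3, map_add, h4, map_add, map_smul, hg, smul_eq_mul, mul_one, hF]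
  rw [← h1]
  have h2 : r (Φ (0, β)) ≤ C * ‖β‖ := by
    have h3 := hC (0, β)
    have h4 : ‖((0 : ℂ), β)‖ = ‖β‖ := by
      rw [Prod.norm_def]
      simp
    rw [h4] at h3
    exact h3
  calc ‖g (J.act a (Φ (0, β)))‖ ≤ p a * r (Φ (0, β)) := hpr a _
    _ ≤ p a * (C * ‖β‖) := mul_le_mul_of_nonneg_left h2 (apply_nonneg p a)
    _ = C * p a * ‖β‖ := by ring

end

end Pool.Agent.Helper20.FA
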