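import Pool.Agent.Helper20.FG.Nec2

/-!
# Extensions of module morphisms into injective modules
-/

open Topology Filter

namespace Pool.Agent.Helper20.FA

universe u v

attribute [local instance] IsFrechet.tag IsFrechet.csm IsFrechet.lcs

section

variable {A : Type u} [NonUnitalRing A] [Module ℂ A] [TopologicalSpace A]

/-- The product of two modules. -/
def prodM (J V : FMod A) : FMod A where
  X := J.X × V.X
  fre := IsFrechet.prod
  act := LinearMap.mk₂ ℂ (fun a z => (J.act a z.1, V.act a z.2))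
    (by intro a b z; simp)
    (by intro r a z; simp)
    (by intro a z w; simp)
    (by intro r a z; simp)
  act_mul := by
    intro a b z
    show (J.act (a * b) z.1, V.act (a * b) z.2) = (J.act a (J.act b z.1), V.act a (V.act b z.2))
    rw [J.act_mul, V.act_mul]
  act_cont := by
    have h1 : Continuous fun p : A × (J.X × V.X) => J.act p.1 p.2.1 :=
      J.act_cont.comp (by fun_prop : Continuous fun p : A × (J.X × V.X) => (p.1, p.2.1))
    have h2 : Continuous fun p : A × (J.X × V.X) => V.act p.1 p.2.2 :=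
      V.act_cont.comp (by fun_prop : Continuous fun p : A × (J.X × V.X) => (p.1, p.2.2))
    exact h1.prodMk h2

/-- The graph. -/
def grV {J V : FMod A} (L : Submodule ℂ V.X) (τ : V.X →L[ℂ] J.X) :
    Submodule ℂ (J.X × V.X) where
  carrier := {z | z.2 ∈ L ∧ z.1 = -(τ z.2)}
  add_mem' := by
    rintro z w ⟨h2, h3⟩ ⟨h5, h6⟩
    refine ⟨L.add_mem h2 h5, ?_⟩
    rw [Prod.fst_add, h3, h6, Prod.snd_add, map_add, neg_add]
  zero_mem' := by
    refine ⟨L.zero_mem, ?_⟩
    simp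
  smul_mem' := by
    rintro r z ⟨h2, h3⟩
    refine ⟨L.smul_mem r h2, ?_⟩
    rw [Prod.smul_fst, h3, Prod.smul_snd, map_smul, smul_neg]

end

variable {A : Type u} [NonUnitalRing A] [Module ℂ A] [IsScalarTower ℂ A A] [SMulCommClass ℂ A A]
  [TopologicalSpace A] [IsFrechet A] [ContinuousMul A]

/-- Morphisms on closed submodules extend to injective modules if they extend linearly. -/
theorem exists_hom {J V : FMod A} (hJ : Injective J) (L : Submodule ℂ V.X)
    (hLc : IsClosed (L : Set V.X)) (hL : ∀ a : A, ∀ c ∈ L, V.act a c ∈ L)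
    (τ : V.X →L[ℂ] J.X) (hτ : ∀ a : A, ∀ c ∈ L, τ (V.act a c) = J.act a (τ c)) :
    ∃ Φ : V.X →L[ℂ] J.X, IsHom V J Φ ∧ ∀ c ∈ L, Φ c = τ c := by
  have := J.fre.metr
  let N : Submodule ℂ (prodM J V).X := grV L τ
  have hN : ∀ z : (prodM J V).X, z ∈ N ↔ z.2 ∈ L ∧ z.1 = -(τ z.2) := fun z => Iff.rfl
  have hNc : IsClosed (N : Set (prodM J V).X) := by
    have h2 : IsClosed {z : J.X × V.X | z.2 ∈ L} :=
      hLc.preimage (by fun_prop : Continuous fun z : J.X × V.X => z.2)
    have h3 : IsClosed {z : J.X × V.X | z.1 = -(τ z.2)} :=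
      isClosed_eq (by fun_prop) (by fun_prop)
    exact h2.inter h3
  have hst : ∀ a : A, N ≤ N.comap ((prodM J V).act a) := by
    rintro a z ⟨h2, h3⟩
    refine ⟨hL a _ h2, ?_⟩
    show J.act a z.1 = -(τ (V.act a z.2))
    rw [hτ a _ h2, h3, map_neg]
  let Y : FMod A := quotM (prodM J V) N hNc hst
  let φ : J.X →L[ℂ] Y.X := N.mkQL.comp (ContinuousLinearMap.inl ℂ J.X V.X)
  have hφh : IsHom J Y φ := by
    intro a x
    show N.mkQ (J.act a x, 0) = N.mkQ (J.act a x, V.act a 0)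
    rw [map_zero]
  let ψ0 : (J.X × V.X) →L[ℂ] J.X :=
    ContinuousLinearMap.fst ℂ J.X V.X + τ.comp (ContinuousLinearMap.snd ℂ J.X V.X)
  have hψ0 : ∀ z, ψ0 z = z.1 + τ z.2 := fun z => rfl
  have hker : ∀ z ∈ N, ψ0 z = 0 := by
    rintro z ⟨h2, h3⟩
    rw [hψ0, h3, neg_add_cancel]
  obtain ⟨ρ, hρ, hρφ⟩ := hJ Y φ hφh ⟨N.liftQL ψ0 hker, by
    intro x
    show ψ0 (x, 0) = x
    rw [hψ0]
    simp⟩
  let Φ : V.X →L[ℂ] J.X := ρ.comp (N.mkQL.comp (ContinuousLinearMap.inr ℂ J.X V.X))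
  refine ⟨Φ, fun a v => ?_, fun c hc => ?_⟩
  · show ρ (N.mkQ (0, V.act a v)) = J.act a (ρ (N.mkQ (0, v)))
    rw [← hρ]
    congr 1
    show N.mkQ (0, V.act a v) = N.mkQ (J.act a 0, V.act a v)
    rw [map_zero]
  · show ρ (N.mkQ (0, c)) = τ c
    rw [← hρφ (τ c)]
    congr 1
    show N.mkQ (0, c) = N.mkQ (τ c, 0)
    rw [← sub_eq_zero, ← map_sub, ← LinearMap.mem_ker, Submodule.ker_mkQ, hN]
    refine ⟨?_, ?_⟩
    · show c - 0 ∈ L
      rwa [sub_zero]
    · show (0 : J.X) - τ c = -(τ (c - 0))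
      rw [sub_zero, zero_sub]

/-- A jointly continuous functional of the action is bounded by a product of seminorms. -/
theorem exists_bound {J : FMod A} (g : J.X →L[ℂ] ℂ) :
    ∃ (p : Seminorm ℂ A) (r : Seminorm ℂ J.X), Continuous p ∧ Continuous r ∧
      ∀ a x, ‖g (J.act a x)‖ ≤ p a * r x := by
  have h1 : Continuous fun z : A × J.X => ‖g (J.act z.1 z.2)‖ :=
    (g.continuous.comp J.act_cont).norm
  have h2 : {z : A × J.X | ‖g (J.act z.1 z.2)‖ < 1} ∈ 𝓝 ((0 : A), (0 : J.X)) := by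
    refine (isOpen_lt h1 continuous_const).mem_nhds ?_
    simp
  rw [nhds_prod_eq, Filter.mem_prod_iff] at h2
  obtain ⟨U, hU, V, hV, hUV⟩ := h2
  obtain ⟨p, hp, hpU⟩ := exists_seminorm hU
  obtain ⟨r, hr, hrV⟩ := exists_seminorm hV
  refine ⟨p, r, hp, hr, fun a x => ?_⟩
  have h3 : ∀ ε : ℝ, 0 < ε → ‖g (J.act a x)‖ ≤ (p a + ε) * (r x + ε) := by
    intro ε hε
    have hpa := apply_nonneg p a
    have hrx := apply_nonneg r x
    have hs : 0 < p a + ε := by linarith
    have ht : 0 < r x + ε := by linarith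
    have h4 : (((p a + ε)⁻¹ : ℝ) : ℂ) • a ∈ U := by
      refine hpU _ ?_
      rw [map_smul_eq_mul, Complex.norm_real, Real.norm_of_nonneg (by positivity),
        inv_mul_lt_iff₀ hs]
      linarith
    have h5 : (((r x + ε)⁻¹ : ℝ) : ℂ) • x ∈ V := by
      refine hrV _ ?_
      rw [map_smul_eq_mul, Complex.norm_real, Real.norm_of_nonneg (by positivity),
        inv_mul_lt_iff₀ ht]
      linarith
    have h6 : ‖g (J.act ((((p a + ε)⁻¹ : ℝ) : ℂ) • a) ((((r x + ε)⁻¹ : ℝ) : ℂ) • x))‖ < 1 :=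
      hUV (Set.mk_mem_prod h4 h5)
    have h7 : ∀ s t : ℂ, J.act (s • a) (t • x) = t • s • J.act a x := by
      intro s t
      rw [map_smul, map_smul, LinearMap.smul_apply]
    rw [h7, map_smul, map_smul, smul_eq_mul, smul_eq_mul,
      norm_mul, norm_mul, Complex.norm_real, Complex.norm_real,
      Real.norm_of_nonneg (by positivity), Real.norm_of_nonneg (by positivity),
      inv_mul_lt_iff₀ ht, mul_one, inv_mul_lt_iff₀ hs] at h6
    exact h6.le
  have h7 : Tendsto (fun ε : ℝ => (p a + ε) * (r x + ε)) (𝓝[>] 0) (𝓝 (p a * r x)) := by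
    have h8 : Continuous fun ε : ℝ => (p a + ε) * (r x + ε) := by fun_prop
    have h9 := h8.continuousAt (x := (0 : ℝ))
    rw [ContinuousAt, add_zero, add_zero] at h9
    exact h9.mono_left nhdsWithin_le_nhds
  refine ge_of_tendsto h7 ?_
  filter_upwards [self_mem_nhdsWithin] with ε hε
  exact h3 ε hε

end Pool.Agent.Helper20.FA
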