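import Pool.Agent.Helper20.FK.Dual

/-!
# Köthe algebras: the necessary condition
-/

open Topology Filter

namespace Pool.Agent.Helper20.FA

universe u v

attribute [local instance] IsFrechet.tag IsFrechet.csm IsFrechet.lcs

section

variable {A : Type u} [NonUnitalRing A] [Module ℂ A] [TopologicalSpace A]

/-- The `e n` are unit vectors of the algebra `A` with coordinates `χ n` and coordinatewise
multiplication, and the topology is given by submultiplicative weighted `ℓ^1` seminorms. -/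
structure Kothe (e : ℕ → A) (χ : ℕ → A →L[ℂ] ℂ) : Prop where
  mul_e : ∀ a n, a * e n = χ n a • e n
  e_mul : ∀ a n, e n * a = χ n a • e n
  dual : ∀ m n, χ m (e n) = if n = m then 1 else 0
  topo : ∀ U ∈ 𝓝 (0 : A), ∃ p : Seminorm ℂ A, Continuous p ∧ (∀ a b, p (a * b) ≤ p a * p b) ∧
    (∀ a, HasSum (fun n => ‖χ n a‖ * p (e n)) (p a)) ∧ ∀ a, p a < 1 → a ∈ U

/-- There is a continuous seminorm `p` such that, for each continuous seminorm `q`, some multiple
of `p` is at least `q` on all but finitely many `e n`. -/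
def Dominated (e : ℕ → A) : Prop :=
  ∃ p : Seminorm ℂ A, Continuous p ∧ ∀ q : Seminorm ℂ A, Continuous q →
    ∃ C : ℝ, ∀ᶠ n in atTop, q (e n) ≤ C * p (e n)

end

theorem le_of_lt_one {E : Type v} [AddCommGroup E] [Module ℂ E] {p q : Seminorm ℂ E}
    (h : ∀ a, p a < 1 → q a < 1) (a : E) : q a ≤ p a := by
  by_contra h1
  push Not at h1
  have hq : 0 < q a := lt_of_le_of_lt (apply_nonneg p a) h1
  have h2 := h ((((q a)⁻¹ : ℝ) : ℂ) • a) (by
    rw [map_smul_eq_mul, Complex.norm_real, Real.norm_of_nonneg (by positivity),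
      inv_mul_lt_iff₀ hq, mul_one]
    exact h1)
  rw [map_smul_eq_mul, Complex.norm_real, Real.norm_of_nonneg (by positivity),
    inv_mul_cancel₀ hq.ne'] at h2
  exact lt_irrefl _ h2

section

variable {A : Type u} [NonUnitalRing A] [Module ℂ A] [TopologicalSpace A]
  {e : ℕ → A} {χ : ℕ → A →L[ℂ] ℂ} {q : Seminorm ℂ A}

/-- The functional. -/
noncomputable def bet (hs : ∀ a, HasSum (fun n => ‖χ n a‖ * q (e n)) (q a)) (n : ℕ) : DA q :=
  LinearMap.mkContinuous
    ({ toFun := fun a => (q (e n) : ℂ) * χ n (show A from a)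
       map_add' := fun a b => by
        show (q (e n) : ℂ) * χ n ((show A from a) + (show A from b)) = _
        rw [map_add, mul_add]
       map_smul' := fun r a => by
        show (q (e n) : ℂ) * χ n (r • (show A from a)) = r * _
        rw [map_smul, smul_eq_mul, mul_left_comm] } : SA q →ₗ[ℂ] ℂ) 1 (by
    intro a
    have h1 := le_hasSum (hs a) n (fun m _ => mul_nonneg (norm_nonneg _) (apply_nonneg q _))
    rw [one_mul]
    show ‖(q (e n) : ℂ) * χ n (show A from a)‖ ≤ q a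
    rw [norm_mul, Complex.norm_real, Real.norm_of_nonneg (apply_nonneg q _), mul_comm]
    exact h1)

variable (hs : ∀ a, HasSum (fun n => ‖χ n a‖ * q (e n)) (q a))

theorem bet_at (n : ℕ) (a : A) : (bet hs n).at a = (q (e n) : ℂ) * χ n a := rfl

theorem norm_sum_bet (S : Finset ℕ) (θ : ℕ → ℂ) (hθ : ∀ n, ‖θ n‖ ≤ 1) :
    ‖∑ n ∈ S, θ n • bet hs n‖ ≤ 1 := by
  refine ContinuousLinearMap.opNorm_le_bound _ zero_le_one fun a => ?_
  rw [ContinuousLinearMap.sum_apply, one_mul]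
  refine (norm_sum_le _ _).trans ?_
  refine le_trans (Finset.sum_le_sum fun n _ => ?_)
    (sum_le_hasSum S (fun n _ => mul_nonneg (norm_nonneg _) (apply_nonneg q _)) (hs a))
  show ‖θ n * ((q (e n) : ℂ) * χ n (show A from a))‖ ≤ ‖χ n a‖ * q (e n)
  rw [norm_mul, norm_mul, Complex.norm_real, Real.norm_of_nonneg (apply_nonneg q _),
    mul_comm (q (e n))]
  exact mul_le_of_le_one_left (mul_nonneg (norm_nonneg _) (apply_nonneg q _)) (hθ n)

theorem norm_bet (n : ℕ) : ‖bet hs n‖ ≤ 1 := by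
  have h1 := norm_sum_bet hs {n} (fun _ => 1) (fun _ => by simp)
  rwa [Finset.sum_singleton, one_smul] at h1

theorem summable_bet (F : DA q →L[ℂ] ℂ) : Summable fun n => ‖F (bet hs n)‖ := by
  refine summable_of_sum_le (c := ‖F‖) (fun n => norm_nonneg _) fun S => ?_
  let θ : ℕ → ℂ := fun n => (starRingEnd ℂ) (F (bet hs n)) / ‖F (bet hs n)‖
  have hθ : ∀ n, ‖θ n‖ ≤ 1 := by
    intro n
    show ‖(starRingEnd ℂ) (F (bet hs n)) / ‖F (bet hs n)‖‖ ≤ 1
    rw [norm_div, RCLike.norm_conj, Complex.norm_real, norm_norm]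
    exact div_self_le_one _
  have hθF : ∀ n, θ n * F (bet hs n) = ((‖F (bet hs n)‖ : ℝ) : ℂ) := by
    intro n
    show (starRingEnd ℂ) (F (bet hs n)) / ‖F (bet hs n)‖ * F (bet hs n) = _
    rw [div_mul_eq_mul_div, Complex.conj_mul']
    by_cases h0 : F (bet hs n) = 0
    · rw [h0]
      simp
    · have h1 : ((‖F (bet hs n)‖ : ℝ) : ℂ) ≠ 0 := by
        simpa using h0
      field_simp
  have h1 : F (∑ n ∈ S, θ n • bet hs n) = ((∑ n ∈ S, ‖F (bet hs n)‖ : ℝ) : ℂ) := by
    rw [map_sum, Complex.ofReal_sum]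
    refine Finset.sum_congr rfl fun n _ => ?_
    rw [map_smul, smul_eq_mul, hθF]
  have h2 := F.le_opNorm (∑ n ∈ S, θ n • bet hs n)
  rw [h1, Complex.norm_real, Real.norm_of_nonneg (Finset.sum_nonneg fun n _ => norm_nonneg _)] at h2
  calc ∑ n ∈ S, ‖F (bet hs n)‖ ≤ ‖F‖ * ‖∑ n ∈ S, θ n • bet hs n‖ := h2
    _ ≤ ‖F‖ * 1 :=
      mul_le_mul_of_nonneg_left (norm_sum_bet hs S θ hθ) (ContinuousLinearMap.opNorm_nonneg F)
    _ = ‖F‖ := mul_one _

end

variable {A : Type u} [NonUnitalRing A] [Module ℂ A] [IsScalarTower ℂ A A] [SMulCommClass ℂ A A]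
  [TopologicalSpace A] [IsFrechet A] [ContinuousMul A] {e : ℕ → A} {χ : ℕ → A →L[ℂ] ℂ}

theorem Kothe.e_sq (h : Kothe e χ) (n : ℕ) : e n * e n = e n := by
  rw [h.mul_e, h.dual, if_pos rfl, one_smul]

theorem Kothe.weight (h : Kothe e χ) {q : Seminorm ℂ A} (hm : ∀ a b, q (a * b) ≤ q a * q b)
    (n : ℕ) : q (e n) = 0 ∨ 1 ≤ q (e n) := by
  have h1 := hm (e n) (e n)
  rw [h.e_sq] at h1
  rcases (apply_nonneg q (e n)).eq_or_lt with h2 | h2
  · exact Or.inl h2.symm
  · right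
    by_contra h3
    push Not at h3
    nlinarith

/-- The necessary condition. -/
theorem Kothe.nec (h : Kothe e χ) {J : FMod A} (hJ : Injective J) {y : J.X} (hy0 : y ≠ 0)
    (hy : ∀ a : A, J.act a y = 0) : Dominated e := by
  obtain ⟨p, hp, H⟩ := necN hJ hy0 hy
  refine ⟨p, hp, fun q0 hq0 => ?_⟩
  have hU : {a : A | q0 a < 1} ∈ 𝓝 (0 : A) := by
    refine (isOpen_lt hq0 continuous_const).mem_nhds ?_
    show q0 0 < 1
    rw [map_zero]
    exact one_pos
  obtain ⟨q, hq, hm, hs, hqU⟩ := h.topo _ hU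
  have hle : ∀ a, q0 a ≤ q a := le_of_lt_one hqU
  obtain ⟨F, C, hC0, hF⟩ := H q hm hq
  have h1 : Tendsto (fun n => ‖F (bet hs n)‖) atTop (𝓝 0) :=
    (summable_bet hs F).tendsto_atTop_zero
  have h2 : ∀ᶠ n in atTop, ‖F (bet hs n)‖ < 1 / 2 := h1.eventually (gt_mem_nhds (by norm_num))
  refine ⟨2 * C, ?_⟩
  filter_upwards [h2] with n hn
  have h3 : SA.B q hm (SA.of q (e n)) (bet hs n) = bet hs n := by
    refine DA.ext' fun c => ?_
    rw [SA.B_at, bet_at, bet_at, h.mul_e, map_smul, smul_eq_mul, h.dual, if_pos rfl, mul_one]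
  have h4 := hF (e n) (bet hs n)
  rw [h3, bet_at, h.dual, if_pos rfl, mul_one] at h4
  have h5 : ‖(q (e n) : ℂ) + F (bet hs n)‖ ≤ C * p (e n) :=
    h4.trans (mul_le_of_le_one_right (mul_nonneg hC0.le (apply_nonneg p _)) (norm_bet hs n))
  have h6 : q (e n) ≤ ‖(q (e n) : ℂ) + F (bet hs n)‖ + ‖F (bet hs n)‖ := by
    have h7 := norm_sub_le ((q (e n) : ℂ) + F (bet hs n)) (F (bet hs n))
    rwa [add_sub_cancel_right, Complex.norm_real,
      Real.norm_of_nonneg (apply_nonneg q _)] at h7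
  have h8 := hle (e n)
  have h9 : 0 ≤ C * p (e n) := mul_nonneg hC0.le (apply_nonneg p _)
  rcases h.weight hm n with h10 | h10
  · rw [h10] at h8
    linarith
  · linarith

end Pool.Agent.Helper20.FA
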