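import Pool.Agent.Helper20.FK.K1

/-!
# Köthe algebras: the sufficient condition
-/

open Topology Filter

namespace Pool.Agent.Helper20.FA

universe u v

attribute [local instance] IsFrechet.tag IsFrechet.csm IsFrechet.lcs

theorem summable_of_vanish {E : Type v} [AddCommGroup E] [Module ℂ E] [TopologicalSpace E]
    [hE : IsFrechet E] {a : ℕ → E}
    (h : ∀ q : Seminorm ℂ E, Continuous q → ∃ N : ℕ, ∀ n, N ≤ n → q (a n) = 0) :
    Summable a := by
  let : UniformSpace E := IsTopologicalAddGroup.rightUniformSpace E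
  have : IsUniformAddGroup E := isUniformAddGroup_of_addCommGroup
  have : CompleteSpace E := hE.complete
  rw [summable_iff_vanishing]
  intro U hU
  obtain ⟨q, hq, hqe⟩ := exists_seminorm hU
  obtain ⟨n, hn⟩ := h q hq
  refine ⟨Finset.range n, fun t ht => hqe _ ?_⟩
  have h1 : q (∑ b ∈ t, a b) ≤ ∑ b ∈ t, q (a b) :=
    Finset.le_sum_of_subadditive q (map_zero q).le (map_add_le_add q) _ _
  refine h1.trans_lt ?_
  rw [Finset.sum_eq_zero]
  · exact one_pos
  · intro b hb
    refine hn b ?_
    by_contra h2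
    push Not at h2
    exact Finset.disjoint_left.1 ht hb (Finset.mem_range.2 h2)

variable {A : Type u} [NonUnitalRing A] [Module ℂ A] [IsScalarTower ℂ A A] [SMulCommClass ℂ A A]
  [TopologicalSpace A] [IsFrechet A] [ContinuousMul A] {e : ℕ → A} {χ : ℕ → A →L[ℂ] ℂ}

theorem Kothe.mul (h : Kothe e χ) (m : ℕ) (a b : A) : χ m (a * b) = χ m a * χ m b := by
  have h1 : χ m (a * b * e m) = χ m (a * (b * e m)) := by rw [mul_assoc]
  rw [h.mul_e, map_smul, h.mul_e b, mul_smul_comm, h.mul_e a, map_smul, map_smul, h.dual,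
    if_pos rfl, smul_eq_mul, smul_eq_mul, smul_eq_mul, mul_one, mul_one] at h1
  rw [h1, mul_comm]

theorem Kothe.ext (h : Kothe e χ) {a b : A} (hab : ∀ m, χ m a = χ m b) : a = b := by
  have hmt := (inferInstance : IsFrechet A).metr
  by_contra h0
  have h1 : a - b ≠ 0 := sub_ne_zero.2 h0
  have h2 : {a - b}ᶜ ∈ 𝓝 (0 : A) := isOpen_compl_singleton.mem_nhds (Ne.symm h1)
  obtain ⟨p, -, -, hs, hpU⟩ := h.topo _ h2
  have h3 : p (a - b) = 0 := by
    have h4 : (fun n => ‖χ n (a - b)‖ * p (e n)) = fun _ => 0 := by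
      funext n
      rw [map_sub, hab, sub_self, norm_zero, zero_mul]
    have h5 := hs (a - b)
    rw [h4] at h5
    exact h5.unique hasSum_zero
  exact hpU (a - b) (by rw [h3]; exact one_pos) rfl

section

variable (e) (p : Seminorm ℂ A)

open Classical in
/-- The unit vectors of seminorm zero. -/
noncomputable def zer (n : ℕ) : A := if p (e n) = 0 then e n else 0

/-- The family of idempotents. -/
noncomputable def famK : ℕ → ℂ × A
  | 0 => (1, -∑' n, zer e p n)
  | n + 1 => (0, zer e p n)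

end

variable {p p' : Seminorm ℂ A}

theorem Kothe.zer_mul (h : Kothe e χ) (n : ℕ) (c : A) : zer e p n * c = χ n c • zer e p n := by
  unfold zer
  split_ifs
  · exact h.e_mul c n
  · rw [zero_mul, smul_zero]

theorem Kothe.zer_sq (h : Kothe e χ) (n : ℕ) : zer e p n * zer e p n = zer e p n := by
  rw [h.zer_mul]
  unfold zer
  split_ifs
  · rw [h.dual, if_pos rfl, one_smul]
  · rw [smul_zero]

open Classical in
theorem Kothe.chi_zer (h : Kothe e χ) (m n : ℕ) :
    χ m (zer e p n) = if n = m then (if p (e m) = 0 then 1 else 0) else 0 := by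
  unfold zer
  by_cases hnm : n = m
  · subst hnm
    rw [if_pos rfl]
    split_ifs
    · rw [h.dual, if_pos rfl]
    · exact map_zero _
  · rw [if_neg hnm]
    split_ifs
    · rw [h.dual, if_neg hnm]
    · exact map_zero _

/-- `p` dominates. -/
def Dom (e : ℕ → A) (p : Seminorm ℂ A) : Prop := ∀ q : Seminorm ℂ A, Continuous q →
    ∃ C : ℝ, 0 ≤ C ∧ ∃ N : ℕ, ∀ n, N ≤ n → q (e n) ≤ C * p (e n)

theorem zer_small (hD : Dom e p) (q : Seminorm ℂ A) (hq : Continuous q) :
    ∃ N : ℕ, ∀ n, N ≤ n → q (zer e p n) = 0 := by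
  obtain ⟨C, hC, N, hN⟩ := hD q hq
  refine ⟨N, fun n hn => ?_⟩
  unfold zer
  split_ifs with h1
  · have h2 := hN n hn
    rw [h1, mul_zero] at h2
    exact le_antisymm h2 (apply_nonneg q _)
  · exact map_zero q

theorem zer_summable (hD : Dom e p) : Summable (zer e p) := summable_of_vanish (zer_small hD)

open Classical in
theorem Kothe.chi_s (h : Kothe e χ) (hD : Dom e p) (m : ℕ) :
    χ m (∑' n, zer e p n) = if p (e m) = 0 then 1 else 0 := by
  have h1 := (zer_summable hD).hasSum.mapL (χ m)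
  have h2 : HasSum (fun n => χ m (zer e p n)) (χ m (zer e p m)) := by
    refine hasSum_single m fun n hn => ?_
    rw [h.chi_zer, if_neg hn]
  rw [h1.unique h2, h.chi_zer, if_pos rfl]

theorem Kothe.s_sq (h : Kothe e χ) (hD : Dom e p) :
    (∑' n, zer e p n) * (∑' n, zer e p n) = ∑' n, zer e p n := by
  refine h.ext fun m => ?_
  rw [h.mul, h.chi_s hD]
  split_ifs
  · rw [one_mul]
  · rw [zero_mul]

theorem Kothe.fam (h : Kothe e χ) (hD : Dom e p) : Fam (famK e p) where
  idem i := by
    cases i with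
    | zero =>
      show mulP (1, -∑' n, zer e p n) (1, -∑' n, zer e p n) = (1, -∑' n, zer e p n)
      rw [mulP_def]
      refine Prod.ext (one_mul (1 : ℂ)) ?_
      show (1 : ℂ) • (-∑' n, zer e p n) + (1 : ℂ) • (-∑' n, zer e p n) +
        (-∑' n, zer e p n) * (-∑' n, zer e p n) = -∑' n, zer e p n
      rw [neg_mul_neg, h.s_sq hD, one_smul]
      abel
    | succ n =>
      show mulP (0, zer e p n) (0, zer e p n) = (0, zer e p n)
      rw [mulP_def]
      refine Prod.ext (mul_zero (0 : ℂ)) ?_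
      show (0 : ℂ) • zer e p n + (0 : ℂ) • zer e p n + zer e p n * zer e p n = zer e p n
      rw [h.zer_sq, zero_smul, zero_add, zero_add]
  small U hU := by
    have h0 : U ∈ 𝓝 ((0 : ℂ), (0 : A)) := hU
    rw [nhds_prod_eq, Filter.mem_prod_iff] at h0
    obtain ⟨V1, hV1, V2, hV2, hV⟩ := h0
    obtain ⟨q, hq, hqV⟩ := exists_seminorm hV2
    obtain ⟨N, hN⟩ := zer_small hD q hq
    refine ⟨N + 1, fun i hi z => ?_⟩
    obtain ⟨n, rfl⟩ : ∃ n, i = n + 1 := ⟨i - 1, by omega⟩
    have h1 : mulP (famK e p (n + 1)) z = (0, (z.1 + χ n z.2) • zer e p n) := by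
      show mulP (0, zer e p n) z = _
      rw [mulP_def]
      refine Prod.ext (zero_mul _) ?_
      show (0 : ℂ) • z.2 + z.1 • zer e p n + zer e p n * z.2 = _
      rw [h.zer_mul, zero_smul, zero_add, add_smul]
    rw [h1]
    refine hV (Set.mk_mem_prod (mem_of_mem_nhds hV1) (hqV _ ?_))
    rw [map_smul_eq_mul, hN n (by omega), mul_zero]
    exact one_pos
  sum := by
    rw [← tendsto_add_atTop_iff_nat 1]
    have h1 : ∀ n, ∑ i ∈ Finset.range (n + 1), famK e p i =
        (1, (∑ i ∈ Finset.range n, zer e p i) - ∑' n, zer e p n) := by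
      intro n
      rw [Finset.sum_range_succ']
      have h2 : ∑ i ∈ Finset.range n, famK e p (i + 1) = (0, ∑ i ∈ Finset.range n, zer e p i) := by
        induction n with
        | zero => rfl
        | succ n ih =>
          rw [Finset.sum_range_succ, ih, Finset.sum_range_succ]
          exact Prod.ext (add_zero (0 : ℂ)) rfl
      rw [h2]
      refine Prod.ext (zero_add (1 : ℂ)) ?_
      show (∑ i ∈ Finset.range n, zer e p i) + -∑' n, zer e p n = _
      rw [sub_eq_add_neg]
    simp_rw [h1]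
    refine Tendsto.prodMk_nhds tendsto_const_nhds ?_
    have h3 := (zer_summable hD).hasSum.tendsto_sum_nat
    have h4 := h3.sub_const (∑' n, zer e p n)
    rwa [sub_self] at h4

end Pool.Agent.Helper20.FA
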